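import Mathlib
import Pool.Agent.Y682.XT.Stm

/-!
# The group determinant without the trivial element
-/

set_option autoImplicit false

namespace Pool.Agent.Y405.XT

open scoped Classical

section
variable {G : Type} [CommGroup G]

/-- The character with values in the complex numbers. -/
noncomputable def cc (χ : G →* ℂˣ) : G →* ℂ := (Units.coeHom ℂ).comp χ

theorem cc_apply (χ : G →* ℂˣ) (g : G) : cc χ g = ((χ g : ℂˣ) : ℂ) := rfl

theorem cc_inj : Function.Injective (cc : (G →* ℂˣ) → (G →* ℂ)) := by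
  intro χ ψ h
  ext g
  exact congrArg (fun φ : G →* ℂ => φ g) h

variable [Fintype G]

theorem cc_norm (χ : G →* ℂˣ) (g : G) : ‖((χ g : ℂˣ) : ℂ)‖ = 1 := by
  have h : ((χ g : ℂˣ) : ℂ) ^ Fintype.card G = 1 := by
    rw [← Units.val_pow_eq_pow_val, ← map_pow, pow_card_eq_one, map_one, Units.val_one]
  exact Complex.norm_eq_one_of_pow_eq_one h Fintype.card_ne_zero

theorem cc_inv (χ : G →* ℂˣ) (g : G) :
    ((χ g : ℂˣ) : ℂ)⁻¹ = (starRingEnd ℂ) ((χ g : ℂˣ) : ℂ) :=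
  Complex.inv_eq_conj (cc_norm χ g)

theorem cc_sum (χ : G →* ℂˣ) (h : χ ≠ 1) : ∑ g, ((χ g : ℂˣ) : ℂ) = 0 := by
  refine sum_hom_units_eq_zero (cc χ) fun h1 => h ?_
  ext g
  have := congrArg (fun φ : G →* ℂ => φ g) h1
  simpa [cc] using this

theorem main_id (f : G → ℝ) (χ : G →* ℂˣ) (h : χ ≠ 1) (g : G) :
    ∑ k : {k : G // k ≠ 1}, ((f (g * k.1) - f g : ℝ) : ℂ) * ((χ k.1 : ℂˣ) : ℂ) =
      (starRingEnd ℂ) ((χ g : ℂˣ) : ℂ) * ∑ k, ((χ k : ℂˣ) : ℂ) * (f k : ℂ) := by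
  have h1 : ∑ k : {k : G // k ≠ 1}, ((f (g * k.1) - f g : ℝ) : ℂ) * ((χ k.1 : ℂˣ) : ℂ) =
      ∑ k : G, ((f (g * k) - f g : ℝ) : ℂ) * ((χ k : ℂˣ) : ℂ) := by
    rw [← Finset.sum_subtype (Finset.univ.erase (1 : G)) (p := fun k => k ≠ 1)
      (f := fun k => ((f (g * k) - f g : ℝ) : ℂ) * ((χ k : ℂˣ) : ℂ)) (by simp)]
    rw [← Finset.add_sum_erase Finset.univ _ (Finset.mem_univ (1 : G))]
    simp
  rw [h1]
  have h2 : ∑ k : G, ((f (g * k) - f g : ℝ) : ℂ) * ((χ k : ℂˣ) : ℂ) =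
      ∑ k : G, (f (g * k) : ℂ) * ((χ k : ℂˣ) : ℂ) - (f g : ℂ) * ∑ k : G, ((χ k : ℂˣ) : ℂ) := by
    rw [Finset.mul_sum, ← Finset.sum_sub_distrib]
    refine Finset.sum_congr rfl fun k _ => ?_
    push_cast
    ring
  rw [h2, cc_sum χ h, mul_zero, sub_zero, Finset.mul_sum]
  refine Fintype.sum_equiv (Equiv.mulLeft g) _ _ fun k => ?_
  rw [Equiv.coe_mulLeft, map_mul, Units.val_mul, ← cc_inv]
  have hne : ((χ g : ℂˣ) : ℂ) ≠ 0 := Units.ne_zero _
  field_simp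

/-- The matrix of the values of the nontrivial characters at the nontrivial elements. -/
noncomputable def XX (e : {g : G // g ≠ 1} ≃ {χ : G →* ℂˣ // χ ≠ 1}) :
    Matrix {g : G // g ≠ 1} {g : G // g ≠ 1} ℂ :=
  Matrix.of fun h j => (((e j).1 h.1 : ℂˣ) : ℂ)

theorem det_XX (e : {g : G // g ≠ 1} ≃ {χ : G →* ℂˣ // χ ≠ 1}) : (XX e).det ≠ 0 := by
  intro h0
  obtain ⟨v, hv, hX⟩ := Matrix.exists_mulVec_eq_zero_iff.2 h0
  apply hv
  have hli : LinearIndependent ℂ (fun j : {g : G // g ≠ 1} => (cc (e j).1 : G → ℂ)) :=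
    (linearIndependent_monoidHom G ℂ).comp (fun j : {g : G // g ≠ 1} => cc (e j).1)
      fun a b hab => e.injective (Subtype.ext (cc_inj hab))
  have h1 : ∀ k : G, k ≠ 1 → ∑ j, v j * (((e j).1 k : ℂˣ) : ℂ) = 0 := by
    intro k hk
    have := congrFun hX ⟨k, hk⟩
    simp only [Matrix.mulVec, dotProduct, XX, Matrix.of_apply, Pi.zero_apply] at this
    rw [← this]
    exact Finset.sum_congr rfl fun j _ => mul_comm _ _
  have h2 : ∑ k : G, ∑ j, v j * (((e j).1 k : ℂˣ) : ℂ) = 0 := by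
    rw [Finset.sum_comm]
    refine Finset.sum_eq_zero fun j _ => ?_
    rw [← Finset.mul_sum, cc_sum _ (e j).2, mul_zero]
  rw [← Finset.add_sum_erase Finset.univ _ (Finset.mem_univ (1 : G)),
    Finset.sum_eq_zero (s := Finset.univ.erase (1 : G)) (fun k hk => h1 k (Finset.ne_of_mem_erase hk)),
    add_zero] at h2
  have h3 : ∑ j, v j • (cc (e j).1 : G → ℂ) = 0 := by
    ext k
    rw [Finset.sum_apply]
    by_cases hk : k = 1
    · subst hk
      exact h2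
    · exact h1 k hk
  ext j
  exact Fintype.linearIndependent_iff.1 hli v h3 j

theorem exists_equiv : Nonempty ({g : G // g ≠ 1} ≃ {χ : G →* ℂˣ // χ ≠ 1}) := by
  obtain ⟨e⟩ := CommGroup.monoidHom_mulEquiv_of_hasEnoughRootsOfUnity G ℂ
  exact ⟨(e.symm.toEquiv.subtypeEquiv fun g => by
    constructor
    · intro h h1
      exact h (by simpa using congrArg e h1)
    · rintro h rfl
      exact h (map_one e.symm))⟩

end

theorem s_det : Pool.Agent.Y682.XT.S_DET := by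
  intro G _ _ f S hS
  obtain ⟨e⟩ := exists_equiv (G := G)
  set N : Matrix {g : G // g ≠ 1} {g : G // g ≠ 1} ℝ :=
    Matrix.of fun g h => f (g.1 * h.1) - f g.1 with hN
  have key : N.map (Complex.ofRealHom) * XX e =
      (XX e).map (starRingEnd ℂ) * Matrix.diagonal fun j =>
        ∑ g, (((e j).1 g : ℂˣ) : ℂ) * (f g : ℂ) := by
    ext g j
    rw [Matrix.mul_diagonal, Matrix.mul_apply]
    simp only [Matrix.map_apply, XX, Matrix.of_apply, hN, Complex.ofRealHom_eq_coe]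
    exact main_id f (e j).1 (e j).2 g.1
  have hdet := congrArg Matrix.det key
  rw [Matrix.det_mul, Matrix.det_mul, Matrix.det_diagonal, ← RingHom.mapMatrix_apply,
    ← RingHom.mapMatrix_apply, ← RingHom.map_det, ← RingHom.map_det] at hdet
  have hn := congrArg norm hdet
  rw [norm_mul, norm_mul, norm_prod, Complex.ofRealHom_eq_coe, Complex.norm_real, RCLike.norm_conj,
    mul_comm] at hn
  have hX : ‖(XX e).det‖ ≠ 0 := norm_ne_zero_iff.2 (det_XX e)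
  haveI : Fintype {χ : G →* ℂˣ // χ ≠ 1} := Fintype.ofEquiv _ e
  have h1 := mul_left_cancel₀ hX hn
  rw [Real.norm_eq_abs] at h1
  rw [h1, Equiv.prod_comp e (fun χ : {χ : G →* ℂˣ // χ ≠ 1} =>
    ‖∑ g, ((χ.1 g : ℂˣ) : ℂ) * (f g : ℂ)‖)]
  exact (Finset.prod_subtype (S.erase 1) (p := fun χ : G →* ℂˣ => χ ≠ 1) (by simp [hS])
    (fun χ : G →* ℂˣ => ‖∑ g, ((χ g : ℂˣ) : ℂ) * (f g : ℂ)‖)).symm

end Pool.Agent.Y405.XT
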